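import Mathlib
import Pool.Agent.Work.MP_f1a024_nt.EX.Asm3

set_option autoImplicit false

/-!
Write `t(n) = ζ(2n)/ζ(n)²`. For odd `n` Euler's formula for `ζ(2n)` shows that
`t(n) (2n)! S² = 2^(2n-1) B_(2n) b²` is equivalent to `b ζ(n)/π^n = ±S`. We show that many odd `n` in
the window `[N-L, N]` satisfy no such equation with `S = a_1 ω_1 + .. + a_m ω_m`, where the `ω_i` are
arbitrary given reals and `a_i`, `b` integers of bounded size.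
-/

namespace Pool.Agent.Results.MP_f1a024_nt.ManyExceptions

open Real Finset
open scoped Nat

/-- Let `κ = 10^(-11)`, let `N ≥ 2`, `L ≤ N`, `m ≥ 1`, `e ≥ 0` be integers and `α, V ≥ 0` reals with
`m (α + N log N) ≤ κ V³`, `(m + e) V³ log(3 + L²/V³) ≤ κ L²` and `e V log N ≤ κ L`, and let
`ω_1, .., ω_m` be real numbers. Then more than `e` odd `n ≥ 3` with `N - L ≤ n ≤ N` satisfy
`t(n) (2n)! (a_1 ω_1 + .. + a_m ω_m)² ≠ 2^(2n-1) B_(2n) b²` for all integers `a_i`, `b` with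
`|a_i| ≤ exp α` and `1 ≤ b ≤ exp(κ max(V, V³/L)/m)`. -/
theorem result (N L m e : ℕ) (α V : ℝ) (ω : Fin m → ℝ) (hN : 2 ≤ N) (hL : L ≤ N) (hm : 1 ≤ m)
    (hα : 0 ≤ α) (hV : 0 ≤ V) (h1 : m * (α + N * Real.log N) ≤ V ^ 3 / 10 ^ 11)
    (h2 : (m + e) * (V ^ 3 * Real.log (3 + (L : ℝ) ^ 2 / V ^ 3)) ≤ (L : ℝ) ^ 2 / 10 ^ 11)
    (h3 : e * (V * Real.log N) ≤ L / 10 ^ 11) :
    ∃ S : Finset ℕ, e < S.card ∧ ∀ n ∈ S, Odd n ∧ 3 ≤ n ∧ N ≤ n + L ∧ n ≤ N ∧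
      ∀ (a : Fin m → ℤ) (b : ℕ), (∀ i, |(a i : ℝ)| ≤ Real.exp α) → 1 ≤ b →
        (b : ℝ) ≤ Real.exp (max V (V ^ 3 / L) / (10 ^ 11 * m)) →
        riemannZeta (2 * n) / riemannZeta n ^ 2 * ((2 * n)! : ℂ) *
          (∑ i, (a i : ℂ) * (ω i : ℂ)) ^ 2 ≠ 2 ^ (2 * n - 1) * (bernoulli (2 * n) : ℂ) * b ^ 2 :=
  Work.MP_f1a024_nt.EX.SPL3_ok N L m e α V ω hN hL hm hα hV h1 h2 h3

end Pool.Agent.Results.MP_f1a024_nt.ManyExceptions
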