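import Pool.Agent.Work.MP_f1a024_nt.TZ.Final

/-!
# No formula for `ζ(2n)/ζ(n)^2` through zeta values and an `L`-value of any real character
-/

namespace Pool.Agent.Results.MP_f1a024_nt.NoBernoulliFormula

open MvPolynomial

/-- `t(n) = ζ(2n)/ζ(n)^2` -/
noncomputable def t (n : ℕ) : ℂ := riemannZeta (2 * n) / riemannZeta n ^ 2

/-- the weights of the variables: `n_a` for `X` (the index `none`), `n_j` for `Y_j` (`some j`) -/
def wt {k : ℕ} (n : Fin k → ℕ) (a : Fin k) : Option (Fin k) → ℕ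
  | none => n a
  | some j => n j

/-- the values of the variables: `L(n_a, χ)` for `X`, `ζ(n_j)` for `Y_j` -/
noncomputable def x {k D : ℕ} [NeZero D] (χ : DirichletCharacter ℂ D) (n : Fin k → ℕ) (a : Fin k) :
    Option (Fin k) → ℂ
  | none => χ.LFunction (n a)
  | some j => riemannZeta (n j)

/-- For all `k`, `d`, `C`, `B` there is `M` such that for all `m ≥ M`, all different
`n_1, ..., n_k` in `[m, C m]`, every `a` and every nontrivial real Dirichlet character `χ` of any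
modulus: (1) every nonzero integer polynomial `P` in `X, Y_1, ..., Y_k`, of degree at most `d` in each
variable, with coefficients at most `B ^ m` in absolute value, homogeneous for the weights
`n_a, n_1, ..., n_k`, satisfies `P(L(n_a, χ), ζ(n_1), ..., ζ(n_k)) ≠ 0`; (2) if `n_b = 2 n_a` and `A`,
`A'` are such polynomials of the same weight with `A(x) = A'(x) t(n_a)`, then
`A Y_a ^ 2 = A' Y_b`. -/
theorem result (k d C : ℕ) (B : ℝ) : ∃ M : ℕ, ∀ m ≥ M, ∀ n : Fin k → ℕ, Function.Injective n →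
    (∀ j, m ≤ n j ∧ n j ≤ C * m) → ∀ (a : Fin k) (D : ℕ) [NeZero D]
    (χ : DirichletCharacter ℂ D), χ ^ 2 = 1 → χ ≠ 1 →
    (∀ (P : MvPolynomial (Option (Fin k)) ℤ) (W : ℕ), P ≠ 0 → (∀ v, P.degreeOf v ≤ d) →
      (∀ s, |((P.coeff s : ℤ) : ℝ)| ≤ B ^ m) → IsWeightedHomogeneous (wt n a) P W →
      aeval (x χ n a) P ≠ 0) ∧
    ∀ (b : Fin k) (A A' : MvPolynomial (Option (Fin k)) ℤ) (W : ℕ), n b = 2 * n a →
      (∀ v, A.degreeOf v ≤ d) → (∀ v, A'.degreeOf v ≤ d) →
      (∀ s, |((A.coeff s : ℤ) : ℝ)| ≤ B ^ m) → (∀ s, |((A'.coeff s : ℤ) : ℝ)| ≤ B ^ m) →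
      IsWeightedHomogeneous (wt n a) A W → IsWeightedHomogeneous (wt n a) A' W →
      aeval (x χ n a) A = aeval (x χ n a) A' * t (n a) →
      A * X (some a) ^ 2 = A' * X (some b) := by
  obtain ⟨M, h⟩ := Pool.Agent.Work.MP_f1a024_nt.TZ.zg k d C B
  refine ⟨M, fun m hm n hn hC a D _ χ h1 h2 => ?_⟩
  have hw : wt n a = Pool.Agent.Work.MP_f1a024_nt.TZ.wt n a := by
    funext v
    cases v <;> rfl
  have hx : x χ n a = Pool.Agent.Work.MP_f1a024_nt.TZ.pf χ n a := by
    funext v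
    cases v <;> rfl
  rw [hw, hx]
  exact h m hm n hn hC a D χ h1 h2

end Pool.Agent.Results.MP_f1a024_nt.NoBernoulliFormula
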