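import Pool.Agent.Work.MP_f1a024_nt.TV.Final

/-!
# Formulas for `ζ(2n)/ζ(n)^2` through values of `ζ` and of Dirichlet `L`-functions
-/

namespace Pool.Agent.Results.MP_f1a024_nt.OnlyTrivialFormulas

open MvPolynomial

/-- `t(n) = ζ(2n)/ζ(n)^2` -/
noncomputable def t (n : ℕ) : ℂ := riemannZeta (2 * n) / riemannZeta n ^ 2

/-- `ζ(n)` for the index `none`, `L(n, χ_i)` for the index `some i` -/
noncomputable def L {r : ℕ} (D : Fin r → ℕ) [∀ i, NeZero (D i)]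
    (χ : ∀ i, DirichletCharacter ℂ (D i)) : Option (Fin r) → ℕ → ℂ
  | none => fun n => riemannZeta n
  | some i => fun n => (χ i).LFunction n

/-- Let `χ_1, ..., χ_r` be nontrivial real Dirichlet characters, pairwise different on some integer
prime to both moduli. For all `k`, `d`, `C`, `B` there are `θ` in `(0,1)` and `M` such that for all
`m ≥ M` and all different `n_1, ..., n_k` in `[m, C m]`: (1) every nonzero integer polynomial `P` in
the variables `X_(i,j)`, of degree at most `d` in each, with coefficients at most `B ^ m` in absolute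
value, satisfies `|P(L(n_j, χ_i))| ≥ θ ^ m` (`i = none` is the zeta function); (2) if `n_b = 2 n_a`
and `A`, `A'` are polynomials of this kind, then `|A(L(n_j, χ_i)) - A'(L(n_j, χ_i)) t(n_a)| ≥ θ ^ m`
unless `A X_a ^ 2 = A' X_b`, where `X_a`, `X_b` are the variables of `ζ(n_a)`, `ζ(n_b)`. -/
theorem result (k r d C : ℕ) (B : ℝ) (D : Fin r → ℕ) [∀ i, NeZero (D i)]
    (χ : ∀ i, DirichletCharacter ℂ (D i)) (h1 : ∀ i, χ i ^ 2 = 1) (h2 : ∀ i, χ i ≠ 1)
    (h3 : ∀ i j, i ≠ j →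
      ∃ m : ℕ, m.Coprime (D i * D j) ∧ χ i (m : ZMod (D i)) ≠ χ j (m : ZMod (D j))) :
    ∃ θ : ℝ, 0 < θ ∧ θ < 1 ∧ ∃ M : ℕ, ∀ m ≥ M, ∀ n : Fin k → ℕ, Function.Injective n →
      (∀ j, m ≤ n j ∧ n j ≤ C * m) →
      (∀ P : MvPolynomial (Option (Fin r) × Fin k) ℤ, P ≠ 0 → (∀ v, P.degreeOf v ≤ d) →
        (∀ s, |((P.coeff s : ℤ) : ℝ)| ≤ B ^ m) →
        θ ^ m ≤ ‖aeval (fun v : Option (Fin r) × Fin k => L D χ v.1 (n v.2)) P‖) ∧
      ∀ (a b : Fin k) (A A' : MvPolynomial (Option (Fin r) × Fin k) ℤ), n b = 2 * n a →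
        (∀ v, A.degreeOf v ≤ d) → (∀ v, A'.degreeOf v ≤ d) →
        (∀ s, |((A.coeff s : ℤ) : ℝ)| ≤ B ^ m) → (∀ s, |((A'.coeff s : ℤ) : ℝ)| ≤ B ^ m) →
        A * X (none, a) ^ 2 ≠ A' * X (none, b) →
        θ ^ m ≤ ‖aeval (fun v : Option (Fin r) × Fin k => L D χ v.1 (n v.2)) A -
          aeval (fun v : Option (Fin r) × Fin k => L D χ v.1 (n v.2)) A' * t (n a)‖ := by
  have hL : (fun (i : Option (Fin r)) (n : ℕ) => L D χ i n) =
      fun i n => Pool.Agent.Work.MP_f1a024_nt.TV.Lv D χ i n := by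
    funext i n
    cases i <;> rfl
  have hL' : ∀ (i : Option (Fin r)) (n : ℕ),
      L D χ i n = Pool.Agent.Work.MP_f1a024_nt.TV.Lv D χ i n := fun i n => congrFun₂ hL i n
  obtain ⟨θ, h0, h01, M, h⟩ := Pool.Agent.Work.MP_f1a024_nt.TV.vfi k r d C B D χ h1 h2 h3
  refine ⟨θ, h0, h01, M, fun m hm n hn hC => ?_⟩
  have hfun : (fun v : Option (Fin r) × Fin k => L D χ v.1 (n v.2)) =
      fun v : Option (Fin r) × Fin k => Pool.Agent.Work.MP_f1a024_nt.TV.Lv D χ v.1 (n v.2) :=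
    funext fun v => hL' v.1 (n v.2)
  rw [hfun]
  exact h m hm n hn hC

end Pool.Agent.Results.MP_f1a024_nt.OnlyTrivialFormulas
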