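import Pool.Agent.Work.MP_f1a024_nt.RL.Final

/-!
# The points `(t(n + s_0), …, t(n + s_k))`, `t(n) = ζ(2n)/ζ(n)^2`, are approximated like generic
points, at all heights from `2 ^ n` to `B ^ n`
-/

namespace Pool.Agent.Results.MP_f1a024_nt.SharpJointExponent

/-- `t(n) = ζ(2n)/ζ(n)^2` -/
noncomputable def t (n : ℕ) : ℂ := riemannZeta (2 * n) / riemannZeta n ^ 2

/-- Let `Λ` be a finite set of `N` exponents and `s_0, …, s_k ≥ 0`.
(1) If the `s_j` are different and `Λ` is a lower set: for all large `n`, all `H` with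
`2 ^ n ≤ H ≤ B ^ n` and all nonzero integer polynomials `P` with exponents in `Λ` and coefficients at
most `H` in absolute value, `|P(t(n + s_0), …, t(n + s_k))| ≥ exp(-εn) * H ^ (1 - N)`.
(2) The exponent and the threshold `2 ^ n` are optimal, for every `Λ` with `N ≥ 2` and all `s_j`: for
all large `n` and all `H ≥ 1` there is such a polynomial with
`|P(…)| ≤ C * H ^ (1 - N) * min(1, H / 2 ^ n)`. -/
theorem result :
    (∀ (k : ℕ) (s : Fin (k + 1) → ℕ) (Λ : Finset (Fin (k + 1) →₀ ℕ)) (B ε : ℝ),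
      Function.Injective s → IsLowerSet (Λ : Set (Fin (k + 1) →₀ ℕ)) → 0 < ε →
      ∃ M : ℕ, ∀ n ≥ M, ∀ (P : MvPolynomial (Fin (k + 1)) ℤ) (H : ℝ), P ≠ 0 →
        P.support ⊆ Λ → (∀ I, |((P.coeff I : ℤ) : ℝ)| ≤ H) → 2 ^ n ≤ H → H ≤ B ^ n →
        Real.exp (-(ε * n)) * (H ^ (Λ.card - 1))⁻¹ ≤
          ‖MvPolynomial.aeval (fun j => t (n + s j)) P‖) ∧
    ∀ (k : ℕ) (s : Fin (k + 1) → ℕ) (Λ : Finset (Fin (k + 1) →₀ ℕ)), 2 ≤ Λ.card →
      ∃ (C : ℝ) (M : ℕ), ∀ n ≥ M, ∀ H : ℝ, 1 ≤ H →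
        ∃ P : MvPolynomial (Fin (k + 1)) ℤ, P ≠ 0 ∧ P.support ⊆ Λ ∧
          (∀ I, |((P.coeff I : ℤ) : ℝ)| ≤ H) ∧
          ‖MvPolynomial.aeval (fun j => t (n + s j)) P‖ ≤
            C * (H ^ (Λ.card - 1))⁻¹ * min 1 (H / 2 ^ n) :=
  ⟨Pool.Agent.Work.MP_f1a024_nt.RL.mtl, Pool.Agent.Work.MP_f1a024_nt.RL.opl'⟩

end Pool.Agent.Results.MP_f1a024_nt.SharpJointExponent
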